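import Pool.Agent.helper73.TF.Spec

set_option autoImplicit false

/-! # TF (MP_a2a22c_al), row LED -/

namespace Pool.Agent.TF

open Matrix Pool.Agent.H48SL
open scoped Pointwise

theorem LED_cm_mul {n : ℕ} (g h : SLZ n) : cm (g * h) = cm g * cm h := by
  have e : ((g * h : SLZ n) : Matrix (Fin n) (Fin n) ℤ) =
      (g : Matrix (Fin n) (Fin n) ℤ) * (h : Matrix (Fin n) (Fin n) ℤ) :=
    Matrix.SpecialLinearGroup.coe_mul g h
  show ((g * h : SLZ n) : Matrix (Fin n) (Fin n) ℤ).map (fun a : ℤ => (a : ℂ)) = _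
  rw [e]
  exact Matrix.map_mul (f := Int.castRingHom ℂ)

theorem LED_cv_dot {n : ℕ} (f v : Fin n → ℤ) : cv f ⬝ᵥ cv v = ((f ⬝ᵥ v : ℤ) : ℂ) := by
  unfold cv dotProduct
  push_cast
  rfl

/-- the action of a power of a transvection -/
theorem LED_pow {n : ℕ} {z : SLZ n} {v f : Fin n → ℤ} (h : Tv z v f) (a : ℤ) (x : Fin n → ℂ) :
    cm (z ^ a) *ᵥ x = ((a : ℂ) * (cv f ⬝ᵥ x)) • cv v + x := by
  have h1 : z ^ a = tv v (a • f) := by rw [h.eq, tv_zsmul_right h.dot]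
  have h2 : (a • f) ⬝ᵥ v = 0 := by rw [smul_dotProduct, h.dot, smul_zero]
  have h3 : ((z ^ a : SLZ n) : Matrix (Fin n) (Fin n) ℤ) = 1 + vecMulVec v (a • f) := by
    rw [h1, tv_coe h2]
  funext i
  show (cm (z ^ a) *ᵥ x) i = ((a : ℂ) * (cv f ⬝ᵥ x)) * cv v i + x i
  unfold cm
  rw [h3]
  have h4 : ∀ j, ((1 + vecMulVec v (a • f) : Matrix (Fin n) (Fin n) ℤ).map
      (fun a : ℤ => (a : ℂ))) i j = (if i = j then 1 else 0) + (v i : ℂ) * ((a : ℂ) * (f j : ℂ)) := by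
    intro j
    rw [Matrix.map_apply, Matrix.add_apply, vecMulVec_apply, Matrix.one_apply, Pi.smul_apply,
      smul_eq_mul]
    push_cast
    rfl
  have h5 : (((1 + vecMulVec v (a • f) : Matrix (Fin n) (Fin n) ℤ).map
      (fun a : ℤ => (a : ℂ))) *ᵥ x) i = ∑ j, ((if i = j then 1 else 0) + (v i : ℂ) *
        ((a : ℂ) * (f j : ℂ))) * x j := by
    show ∑ j, _ * x j = _
    refine Finset.sum_congr rfl fun j _ => ?_
    rw [h4]
  rw [h5]
  have h6 : ∀ j, ((if i = j then (1 : ℂ) else 0) + (v i : ℂ) * ((a : ℂ) * (f j : ℂ))) * x j =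
      (if i = j then x j else 0) + ((a : ℂ) * (v i : ℂ)) * ((f j : ℂ) * x j) := by
    intro j
    split_ifs <;> ring
  simp only [h6]
  rw [Finset.sum_add_distrib, ← Finset.mul_sum, Finset.sum_ite_eq, if_pos (Finset.mem_univ i)]
  unfold cv dotProduct
  ring

/-- the estimate: `w x = A v₀ + B` -/
theorem LED_est {n : ℕ} {H : Subgroup (SLZ n)} (hH : Rk H) (r : ℕ) : ∀ (z : Fin (r + 1) → SLZ n)
    (v f : Fin (r + 1) → Fin n → ℤ), (∀ i, z i ∈ H) → (∀ i, Tv (z i) (v i) (f i)) →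
    (∀ i : Fin r, ¬ CP (z i.castSucc) (z i.succ)) → ∀ x : Fin n → ℂ,
    cv (f (Fin.last r)) ⬝ᵥ x ≠ 0 → ∀ ε : ℝ, 0 < ε → ∃ M : ℕ, ∀ a : Fin (r + 1) → ℤ,
      (∀ i, (M : ℤ) ≤ |a i|) → ∃ (A : ℂ) (B : Fin n → ℂ), A ≠ 0 ∧
        cm (word z a) *ᵥ x = A • cv (v 0) + B ∧ ∀ i, ‖B i‖ ≤ ε * ‖A‖ := by
  induction r with
  | zero =>
    intro z v f hz ht _ x hx ε hε
    have hx0 : 0 < ‖cv (f 0) ⬝ᵥ x‖ := norm_pos_iff.2 hx
    set X : ℝ := ∑ i, ‖x i‖ with hX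
    have hXi : ∀ i, ‖x i‖ ≤ X := fun i =>
      Finset.single_le_sum (f := fun i => ‖x i‖) (fun i _ => norm_nonneg _) (Finset.mem_univ i)
    obtain ⟨M, hM⟩ := exists_nat_ge (X / (ε * ‖cv (f 0) ⬝ᵥ x‖))
    refine ⟨M + 1, fun a ha => ⟨(a 0 : ℂ) * (cv (f 0) ⬝ᵥ x), x, ?_, ?_, ?_⟩⟩
    · refine mul_ne_zero ?_ hx
      have h1 := ha 0
      intro h2
      have h3 : a 0 = 0 := by exact_mod_cast h2
      rw [h3, abs_zero] at h1
      omega
    · have e : word z a = z 0 ^ a 0 := by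
        unfold word
        simp
      rw [e, LED_pow (ht 0)]
    · intro i
      have h1 : (M : ℝ) ≤ ‖(a 0 : ℂ)‖ := by
        rw [Complex.norm_intCast]
        have h2 := ha 0
        have h3 : (M : ℤ) ≤ |a 0| := by
          push_cast at h2
          linarith
        exact_mod_cast h3
      rw [norm_mul]
      rw [div_le_iff₀ (mul_pos hε hx0)] at hM
      refine le_trans (hXi i) (le_trans hM ?_)
      have h2 := mul_le_mul_of_nonneg_right h1 (mul_pos hε hx0).le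
      linarith
  | succ r ih =>
    intro z v f hz ht hc x hx ε hε
    -- the constants
    set F : ℝ := ∑ i, ‖cv (f 0) i‖ with hF
    have hF0 : 0 ≤ F := Finset.sum_nonneg fun i _ => norm_nonneg _
    set V : ℝ := ∑ i, ‖cv (v 1) i‖ with hV
    have hVi : ∀ i, ‖cv (v 1) i‖ ≤ V := fun i =>
      Finset.single_le_sum (f := fun i => ‖cv (v 1) i‖) (fun i _ => norm_nonneg _)
        (Finset.mem_univ i)
    have hV0 : 0 ≤ V := Finset.sum_nonneg fun i _ => norm_nonneg _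
    set ε' : ℝ := 1 / (2 * (F + 1)) with hε'
    have hε'0 : 0 < ε' := by positivity
    have hε'1 : ε' ≤ 1 := by
      rw [hε', div_le_one (by positivity)]
      linarith
    have hFε : F * ε' ≤ 1 / 2 := by
      rw [hε', mul_one_div, div_le_div_iff₀ (by positivity) (by norm_num)]
      linarith
    obtain ⟨M1, hM1⟩ := ih (fun i => z i.succ) (fun i => v i.succ) (fun i => f i.succ)
      (fun i => hz _) (fun i => ht _) (fun i => by
        have := hc i.succ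
        rwa [← Fin.succ_castSucc] at this) x (by
        have e : (Fin.last r).succ = Fin.last (r + 1) := Fin.succ_last r
        rw [e]
        exact hx) ε' hε'0
    obtain ⟨M2, hM2⟩ := exists_nat_ge (2 * (V + 1) / ε)
    refine ⟨M1 + M2 + 1, fun a ha => ?_⟩
    obtain ⟨A, B, hA, hAB, hB⟩ := hM1 (fun i => a i.succ) (fun i => by
      have := ha i.succ
      push_cast at this
      linarith)
    have hA0 : 0 < ‖A‖ := norm_pos_iff.2 hA
    have e : word z a = z 0 ^ a 0 * word (fun i => z i.succ) (fun i => a i.succ) := by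
      unfold word
      rw [List.ofFn_succ, List.prod_cons]
    -- the number `f₀ y`
    have hne : (f 0) ⬝ᵥ (v 1) ≠ 0 := by
      have h1 := hc 0
      exact (hH.pair (z 0) (z 1) (v 0) (f 0) (v 1) (f 1) (hz 0) (hz 1) (ht 0) (ht 1) h1).1
    have hfv : 1 ≤ ‖cv (f 0) ⬝ᵥ cv (v 1)‖ := by
      rw [LED_cv_dot, Complex.norm_intCast]
      have : (1 : ℤ) ≤ |f 0 ⬝ᵥ v 1| := Int.one_le_abs hne
      exact_mod_cast this
    set y : Fin n → ℂ := A • cv (v 1) + B with hy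
    have hfB : ‖cv (f 0) ⬝ᵥ B‖ ≤ 1 / 2 * ‖A‖ := by
      calc ‖cv (f 0) ⬝ᵥ B‖ ≤ ∑ i, ‖cv (f 0) i * B i‖ := norm_sum_le _ _
        _ ≤ ∑ i, ‖cv (f 0) i‖ * (ε' * ‖A‖) := by
            refine Finset.sum_le_sum fun i _ => ?_
            rw [norm_mul]
            exact mul_le_mul_of_nonneg_left (hB i) (norm_nonneg _)
        _ = F * ε' * ‖A‖ := by rw [← Finset.sum_mul]; ring
        _ ≤ 1 / 2 * ‖A‖ := mul_le_mul_of_nonneg_right hFε hA0.le
    have hfy : 1 / 2 * ‖A‖ ≤ ‖cv (f 0) ⬝ᵥ y‖ := by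
      have h1 : cv (f 0) ⬝ᵥ y = A * (cv (f 0) ⬝ᵥ cv (v 1)) + cv (f 0) ⬝ᵥ B := by
        rw [hy, dotProduct_add, dotProduct_smul, smul_eq_mul]
      have h2 : ‖A‖ ≤ ‖A * (cv (f 0) ⬝ᵥ cv (v 1))‖ := by
        rw [norm_mul]
        exact le_mul_of_one_le_right hA0.le hfv
      have h3 : ‖A * (cv (f 0) ⬝ᵥ cv (v 1))‖ ≤ ‖cv (f 0) ⬝ᵥ y‖ + ‖cv (f 0) ⬝ᵥ B‖ := by
        have h4 : A * (cv (f 0) ⬝ᵥ cv (v 1)) = cv (f 0) ⬝ᵥ y - cv (f 0) ⬝ᵥ B := by
          rw [h1]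
          ring
        rw [h4]
        exact norm_sub_le _ _
      linarith
    have ha0 : (M2 : ℝ) + 1 ≤ ‖(a 0 : ℂ)‖ := by
      rw [Complex.norm_intCast]
      have h2 := ha 0
      have h3 : (M2 : ℤ) + 1 ≤ |a 0| := by
        push_cast at h2
        linarith
      exact_mod_cast h3
    have haε : 2 * (V + 1) ≤ ε * ‖(a 0 : ℂ)‖ := by
      rw [div_le_iff₀ hε] at hM2
      nlinarith
    refine ⟨(a 0 : ℂ) * (cv (f 0) ⬝ᵥ y), y, ?_, ?_, ?_⟩
    · refine mul_ne_zero ?_ ?_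
      · refine norm_pos_iff.1 (lt_of_lt_of_le ?_ ha0)
        positivity
      · exact norm_pos_iff.1 (lt_of_lt_of_le (by positivity) hfy)
    · rw [e, LED_cm_mul, ← mulVec_mulVec, hAB, LED_pow (ht 0)]
      rfl
    · intro i
      have h1 : ‖y i‖ ≤ (V + 1) * ‖A‖ := by
        calc ‖y i‖ = ‖A * cv (v 1) i + B i‖ := rfl
          _ ≤ ‖A * cv (v 1) i‖ + ‖B i‖ := norm_add_le _ _
          _ ≤ ‖A‖ * V + ε' * ‖A‖ := by
              rw [norm_mul]
              exact add_le_add (mul_le_mul_of_nonneg_left (hVi i) hA0.le) (hB i)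
          _ ≤ (V + 1) * ‖A‖ := by nlinarith
      rw [norm_mul]
      have h2 : ε * (‖(a 0 : ℂ)‖ * (1 / 2 * ‖A‖)) ≤ ε * (‖(a 0 : ℂ)‖ * ‖cv (f 0) ⬝ᵥ y‖) :=
        mul_le_mul_of_nonneg_left (mul_le_mul_of_nonneg_left hfy (norm_nonneg _)) hε.le
      have h3 := mul_le_mul_of_nonneg_right haε (by positivity : 0 ≤ 1 / 2 * ‖A‖)
      linarith

theorem LED (hPRC : PRC_stmt) : LED_stmt := by
  intro n H hH r z v f hz ht hc x hx ε hε
  obtain ⟨hcont, hsc, -⟩ := hPRC n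
  have hv0 : cv (v 0) ≠ 0 := by
    intro h
    refine (ht 0).ne_v ?_
    funext i
    have h1 := congrFun h i
    unfold cv at h1
    have h2 : ((v 0 i : ℤ) : ℂ) = 0 := h1
    exact_mod_cast h2
  have hca : ContinuousAt (pr : (Fin n → ℂ) → Matrix (Fin n) (Fin n) ℂ) (cv (v 0)) :=
    hcont.continuousAt (isOpen_ne.mem_nhds hv0)
  have h1 : ∀ᶠ y in nhds (cv (v 0)), y ≠ 0 ∧ ∀ i j : Fin n, ‖pr y i j - pr (cv (v 0)) i j‖ < ε := by
    have h0 : ∀ᶠ y in nhds (cv (v 0)), y ≠ 0 := isOpen_ne.mem_nhds hv0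
    refine h0.and ?_
    rw [Filter.eventually_all]
    intro i
    rw [Filter.eventually_all]
    intro j
    have h2 : ContinuousAt (fun y => pr y i j) (cv (v 0)) :=
      ((continuous_apply_apply i j).continuousAt).comp hca
    have h3 := Metric.continuousAt_iff'.1 h2 ε hε
    filter_upwards [h3] with y hy
    rwa [dist_eq_norm] at hy
  obtain ⟨δ, hδ, hδ2⟩ := Metric.eventually_nhds_iff.1 h1
  obtain ⟨M, hM⟩ := LED_est hH r z v f hz ht hc x hx (δ / 2) (by positivity)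
  refine ⟨M, fun a ha => ?_⟩
  obtain ⟨A, B, hA, hAB, hB⟩ := hM a ha
  have hA0 : 0 < ‖A‖ := norm_pos_iff.2 hA
  have e1 : A • cv (v 0) + B = A • (cv (v 0) + A⁻¹ • B) := by
    rw [smul_add, smul_smul, mul_inv_cancel₀ hA, one_smul]
  have hd : dist (cv (v 0) + A⁻¹ • B) (cv (v 0)) < δ := by
    rw [dist_eq_norm, add_sub_cancel_left]
    refine lt_of_le_of_lt ((pi_norm_le_iff_of_nonneg (by positivity : 0 ≤ δ / 2)).2 fun i => ?_)
      (by linarith)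
    show ‖A⁻¹ * B i‖ ≤ δ / 2
    rw [norm_mul, norm_inv]
    calc ‖A‖⁻¹ * ‖B i‖ ≤ ‖A‖⁻¹ * (δ / 2 * ‖A‖) :=
          mul_le_mul_of_nonneg_left (hB i) (inv_nonneg.2 hA0.le)
      _ = δ / 2 := by field_simp
  obtain ⟨-, h5⟩ := hδ2 hd
  rw [hAB, e1, hsc A _ hA]
  exact h5

end Pool.Agent.TF
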